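import Pool.Agent.Y461.LS.Main

/-!
# MP_ba6bfd_gt: a non-reflecting stationary set gives a compact space which is not Eberlein compact
and has Eberlein compact closures of small sets
-/

set_option autoImplicit false

open Cardinal

namespace Pool.Agent.Results.MP_ba6bfd_gt.NonReflectingLadders

open Pool.Agent.Y461.LS

/-- Let `μ` be an infinite cardinal (for the problem: the continuum), and let `Ω` be a well-ordered
set in which all subsets of cardinality at most `μ` are bounded (for instance a regular cardinal
above `μ`). If some stationary set `E` of points of cofinality `ω` of `Ω` does not reflect, then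
there is a compact Hausdorff space which is not Eberlein compact (and not even Corson compact),
although the closure of each of its subsets of cardinality at most `μ` is Eberlein compact. -/
theorem result {Ω : Type} [LinearOrder Ω] [WellFoundedLT Ω] {E : Set Ω} (hS : Stationary E)
    (hE : CofOmega E) (hNR : NonReflecting E) {μ : Cardinal.{0}} (hμ : ℵ₀ ≤ μ)
    (hB : SmallBounded Ω μ) :
    ∃ (X : Type) (_ : TopologicalSpace X), CompactSpace X ∧ T2Space X ∧ ¬ Eberlein X ∧
      ¬ Corson X ∧ ∀ S : Set X, #S ≤ μ → Eberlein (closure S) := by
  obtain ⟨X, τ, h1, h2, h3, h3', h4⟩ := main hS hE hNR hμ hB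
  exact ⟨X, τ, h1, h2, h3', h3, h4⟩

end Pool.Agent.Results.MP_ba6bfd_gt.NonReflectingLadders
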